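import Pool.Agent.H41.FD.Stm

/-!
# Project FD (helper41), module B: the convergent case
-/

set_option autoImplicit false

namespace Pool.Agent.H11.FD

open MeasureTheory Filter Topology ProbabilityTheory Pool.Agent.H41.FD
open Pool.Agent.H41.LD (Past Future RangeDep)

/-- the uniform distribution -/
noncomputable def nu : Measure ℝ := volume.restrict (Set.Icc 0 1)

instance : IsProbabilityMeasure nu := ⟨by simp [nu]⟩

lemma nu_Iic {c : ℝ} (h0 : 0 ≤ c) (h1 : c ≤ 1) : nu.real (Set.Iic c) = c := by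
  unfold nu
  rw [measureReal_restrict_apply measurableSet_Iic]
  have : Set.Iic c ∩ Set.Icc (0 : ℝ) 1 = Set.Icc 0 c := by
    ext x
    simp only [Set.mem_inter_iff, Set.mem_Iic, Set.mem_Icc]
    exact ⟨fun h => ⟨h.2.1, h.1⟩, fun h => ⟨h.2, h.1, h.2.trans h1⟩⟩
  rw [this, Real.volume_real_Icc_of_le h0, sub_zero]

/-- the product measure -/
noncomputable def Pm : Measure (ℕ × ℕ → ℝ) := Measure.infinitePi fun _ => nu

instance : IsProbabilityMeasure Pm := by unfold Pm; infer_instance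

/-- the length of the blocks -/
def L (d : ℕ → ℕ) (s : ℕ) : ℕ := 1 + d (2 ^ s - 1)

/-- the block -/
def bl (d : ℕ → ℕ) (k : ℕ) : ℕ × ℕ :=
  (Nat.log 2 (k + 1), (k + 1 - 2 ^ Nat.log 2 (k + 1)) / L d (Nat.log 2 (k + 1)))

/-- the events -/
def Ev (d : ℕ → ℕ) (k : ℕ) : Set (ℕ × ℕ → ℝ) := {u | u (bl d k) ≤ 1 / ((k : ℝ) + 1)}

lemma pw (k : ℕ) : 2 ^ Nat.log 2 (k + 1) ≤ k + 1 := Nat.pow_log_le_self 2 (Nat.succ_ne_zero k)

lemma pw' (k : ℕ) : k + 1 < 2 ^ Nat.log 2 (k + 1) + 2 ^ Nat.log 2 (k + 1) := by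
  have := Nat.lt_pow_succ_log_self (b := 2) (by norm_num) (k + 1)
  rw [pow_succ] at this
  omega

lemma sep {d : ℕ → ℕ} (hd : Monotone d) {n n' k : ℕ} (h1 : n' ≤ n) (h2 : n + d n < k) :
    bl d n' ≠ bl d k := by
  intro h
  unfold bl at h
  obtain ⟨h3, h4⟩ := Prod.mk.inj h
  rw [← h3] at h4
  have h5 := pw n'
  have h6 := pw k
  rw [← h3] at h6
  set s := Nat.log 2 (n' + 1)
  have hL : 0 < L d s := by unfold L; omega
  have h7 : d (2 ^ s - 1) ≤ d n := hd (by omega)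
  have h8 : k + 1 - 2 ^ s < L d s + (n' + 1 - 2 ^ s) := by
    have e1 := Nat.div_add_mod (n' + 1 - 2 ^ s) (L d s)
    have e2 := Nat.div_add_mod (k + 1 - 2 ^ s) (L d s)
    have e3 := Nat.mod_lt (k + 1 - 2 ^ s) hL
    rw [h4] at e1
    omega
  have h9 : L d s = 1 + d (2 ^ s - 1) := rfl
  omega

lemma ev_meas (d : ℕ → ℕ) (k : ℕ) : MeasurableSet (Ev d k) :=
  measurableSet_le (measurable_pi_apply _) measurable_const

lemma ev_meas' (d : ℕ → ℕ) (k : ℕ) :
    MeasurableSet[MeasurableSpace.comap (fun u : ℕ × ℕ → ℝ => u (bl d k)) inferInstance] (Ev d k) :=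
  ⟨Set.Iic (1 / ((k : ℝ) + 1)), measurableSet_Iic, rfl⟩

lemma prob (i : ℕ × ℕ) {c : ℝ} (h0 : 0 ≤ c) (h1 : c ≤ 1) : Pm.real {u | u i ≤ c} = c := by
  have h : Pm.real ((fun u : ℕ × ℕ → ℝ => u i) ⁻¹' Set.Iic c) = nu.real (Set.Iic c) :=
    (measurePreserving_eval_infinitePi (fun _ : ℕ × ℕ => nu) i).measureReal_preimage
      measurableSet_Iic.nullMeasurableSet
  rw [nu_Iic h0 h1] at h
  exact h

lemma range {d : ℕ → ℕ} (hd : Monotone d) : RangeDep Pm (Ev d) d := by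
  refine ⟨ev_meas d, fun n => ?_⟩
  have h : iIndepFun (fun (i : ℕ × ℕ) (u : ℕ × ℕ → ℝ) => u i) Pm :=
    iIndepFun_infinitePi (P := fun _ => nu) (X := fun _ x => x) (fun _ => measurable_id)
  have h2 : Indep (⨆ k ∈ (bl d '' {k | k ≤ n}),
        MeasurableSpace.comap (fun u : ℕ × ℕ → ℝ => u k) inferInstance)
      (⨆ k ∈ (bl d '' {k | n + d n < k}),
        MeasurableSpace.comap (fun u : ℕ × ℕ → ℝ => u k) inferInstance) Pm := by
    refine indep_iSup_of_disjoint (fun k => (measurable_pi_apply k).comap_le) h ?_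
    rw [Set.disjoint_left]
    rintro _ ⟨n', h1, rfl⟩ ⟨k, h2, h3⟩
    exact sep hd h1 h2 h3.symm
  refine indep_of_indep_of_le_left (indep_of_indep_of_le_right h2 ?_) ?_
  · refine MeasurableSpace.generateFrom_le ?_
    rintro _ ⟨k, hk, rfl⟩
    exact (le_iSup₂_of_le (bl d k) ⟨k, hk, rfl⟩ le_rfl : _ ≤ ⨆ j ∈ (bl d '' {k | n + d n < k}),
        MeasurableSpace.comap (fun u : ℕ × ℕ → ℝ => u j) inferInstance) _ (ev_meas' d k)
  · refine MeasurableSpace.generateFrom_le ?_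
    rintro _ ⟨k, hk, rfl⟩
    exact (le_iSup₂_of_le (bl d k) ⟨k, hk, rfl⟩ le_rfl : _ ≤ ⨆ j ∈ (bl d '' {k | k ≤ n}),
        MeasurableSpace.comap (fun u : ℕ × ℕ → ℝ => u j) inferInstance) _ (ev_meas' d k)

/-- some element in the `s`-th dyadic interval -/
def As (d : ℕ → ℕ) (s : ℕ) : Set (ℕ × ℕ → ℝ) :=
  ⋃ i ∈ Finset.range (2 ^ s / L d s + 1), {u | u (s, i) ≤ 1 / (2 : ℝ) ^ s}

lemma ev_sub (d : ℕ → ℕ) (k : ℕ) : Ev d k ⊆ As d (Nat.log 2 (k + 1)) := by
  intro u hu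
  unfold As
  simp only [Set.mem_iUnion, Finset.mem_range, exists_prop]
  refine ⟨(k + 1 - 2 ^ Nat.log 2 (k + 1)) / L d (Nat.log 2 (k + 1)), ?_, ?_⟩
  · have h1 := pw' k
    exact Nat.lt_succ_of_le (Nat.div_le_div_right (by omega))
  · have h1 : u (bl d k) ≤ 1 / ((k : ℝ) + 1) := hu
    refine h1.trans ?_
    refine one_div_le_one_div_of_le (by positivity) ?_
    exact_mod_cast pw k

lemma as_le (d : ℕ → ℕ) (s : ℕ) :
    Pm.real (As d s) ≤ 1 / (1 + (d (2 ^ s - 1) : ℝ)) + (1 / 2) ^ s := by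
  have h0 : (0 : ℝ) < (2 : ℝ) ^ s := by positivity
  have h1 : (1 : ℝ) / 2 ^ s ≤ 1 := by
    rw [div_le_one h0]
    exact one_le_pow₀ (by norm_num)
  have h2 : Pm.real (As d s) ≤ ∑ i ∈ Finset.range (2 ^ s / L d s + 1), (1 : ℝ) / 2 ^ s := by
    refine (measureReal_biUnion_finset_le _ _).trans (le_of_eq ?_)
    exact Finset.sum_congr rfl fun i _ => prob (s, i) (by positivity) h1
  refine h2.trans ?_
  rw [Finset.sum_const, Finset.card_range, nsmul_eq_mul]
  push_cast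
  have h3 : ((2 ^ s / L d s : ℕ) : ℝ) ≤ 2 ^ s / (1 + (d (2 ^ s - 1) : ℝ)) := by
    refine Nat.cast_div_le.trans (le_of_eq ?_)
    unfold L
    push_cast
    rfl
  calc (((2 ^ s / L d s : ℕ) : ℝ) + 1) * (1 / 2 ^ s)
      ≤ (2 ^ s / (1 + (d (2 ^ s - 1) : ℝ)) + 1) * (1 / 2 ^ s) :=
        mul_le_mul_of_nonneg_right (by linarith) (by positivity)
    _ = 1 / (1 + (d (2 ^ s - 1) : ℝ)) + (1 / 2) ^ s := by
        rw [one_div_pow]
        field_simp

lemma summ {d : ℕ → ℕ} (hd : Monotone d)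
    (h : Summable (fun k : ℕ => 1 / ((k : ℝ) * (1 + d k)))) :
    Summable fun s : ℕ => 1 / (1 + (d (2 ^ s - 1) : ℝ)) + (1 / 2 : ℝ) ^ s := by
  refine Summable.add ?_ (summable_geometric_of_lt_one (by norm_num) (by norm_num))
  have h1 := (summable_condensed_iff_of_nonneg (f := fun k : ℕ => 1 / ((k : ℝ) * (1 + d k)))
    (fun n => by positivity) (fun m n hm hmn => by
      have h2 : (0 : ℝ) < m := by exact_mod_cast hm
      have h3 : (m : ℝ) ≤ n := by exact_mod_cast hmn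
      have h4 : (d m : ℝ) ≤ d n := by exact_mod_cast hd hmn
      refine one_div_le_one_div_of_le (by positivity) ?_
      exact mul_le_mul h3 (by linarith) (by positivity) (by linarith))).2 h
  have h2 : Summable fun s : ℕ => 1 / (1 + (d (2 ^ s) : ℝ)) := by
    refine h1.congr fun s => ?_
    push_cast
    have h0 : (0 : ℝ) < (2 : ℝ) ^ s := by positivity
    have h3 : (0 : ℝ) < 1 + (d (2 ^ s) : ℝ) := by positivity
    field_simp
  rw [← summable_nat_add_iff 1]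
  refine Summable.of_nonneg_of_le (fun s => by positivity) (fun s => ?_) h2
  have h3 : (d (2 ^ s) : ℝ) ≤ d (2 ^ (s + 1) - 1) := by
    have h4 : 2 ^ s ≤ 2 ^ (s + 1) - 1 := by
      have := Nat.one_le_two_pow (n := s)
      rw [pow_succ]
      omega
    exact_mod_cast hd h4
  exact one_div_le_one_div_of_le (by positivity) (by linarith)

theorem b : S_B := by
  intro d hd h
  refine ⟨ℕ × ℕ → ℝ, inferInstance, Pm, inferInstance, Ev d, range hd, fun k => ?_, ?_⟩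
  · refine prob (bl d k) (by positivity) ?_
    rw [div_le_one (by positivity)]
    have : (0 : ℝ) ≤ k := Nat.cast_nonneg k
    linarith
  · have h1 : ∑' s, Pm (As d s) ≠ ⊤ := by
      refine ne_top_of_le_ne_top (summ hd h).tsum_ofReal_ne_top (ENNReal.tsum_le_tsum fun s => ?_)
      rw [← ofReal_measureReal (μ := Pm) (s := As d s)]
      exact ENNReal.ofReal_le_ofReal (as_le d s)
    filter_upwards [ae_eventually_notMem h1] with u hu
    obtain ⟨s₀, hs₀⟩ := eventually_atTop.1 hu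
    refine (Set.finite_lt_nat (2 ^ s₀)).subset fun k hk => ?_
    have h2 : u ∈ As d (Nat.log 2 (k + 1)) := ev_sub d k hk
    have h3 : Nat.log 2 (k + 1) < s₀ := by
      by_contra h4
      exact hs₀ _ (not_lt.1 h4) h2
    have h4 := Nat.lt_pow_of_log_lt (by norm_num : 1 < 2) h3
    show k < 2 ^ s₀
    omega

end Pool.Agent.H11.FD
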